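import Pool.Agent.Helper83.CK.St

/-!
Project CK, module G.
-/

namespace Pool.Agent.Helper42.CK
open Pool.Agent.Helper83.CK Cardinal
universe u

theorem mG : StG.{u} := by
  intro α γ K hK hγ ⟨F, hF⟩ hC
  obtain ⟨q⟩ := Cardinal.eq.1 hK.symm
  obtain ⟨A, hA, hA1, hA2⟩ := hC (fun _ x => (q (F (Set.range x)) : α))
  obtain ⟨X, hXA, hX⟩ := Cardinal.le_mk_iff_exists_subset.1 hA1
  have h1 : #(F '' Om X) = #γ := hF X (hX.trans hK)
  have h2 : ∀ c ∈ F '' Om X, (q c : α) ∈ A ∩ K := by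
    rintro c ⟨s, ⟨hsX, hs⟩, rfl⟩
    refine ⟨?_, (q (F s)).2⟩
    obtain ⟨D⟩ := Cardinal.denumerable_iff.2 hs
    let x : ℕ → α := fun n => ((Denumerable.eqv s).symm n : α)
    have hx : Set.range x = s := by
      ext a
      constructor
      · rintro ⟨n, rfl⟩
        exact ((Denumerable.eqv s).symm n).2
      · intro ha
        exact ⟨Denumerable.eqv s ⟨a, ha⟩, by simp [x]⟩
    have h : (q (F (Set.range x)) : α) ∈ A :=
      hA (fun _ => false) x fun n => hXA (hsX ((Denumerable.eqv s).symm n).2)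
    rwa [hx] at h
  have h3 : #(F '' Om X) ≤ #(A ∩ K : Set α) := by
    refine Cardinal.mk_le_of_injective (f := fun c => ⟨(q c.1 : α), h2 c.1 c.2⟩) ?_
    intro c d hcd
    have h4 : (q c.1 : α) = q d.1 := congrArg (fun z : (A ∩ K : Set α) => (z : α)) hcd
    exact Subtype.ext (q.injective (Subtype.ext h4))
  have h5 : #γ < #γ := by
    calc #γ = #(F '' Om X) := h1.symm
      _ ≤ #(A ∩ K : Set α) := h3
      _ < #K := hA2
      _ = #γ := hK
  exact lt_irrefl _ h5

end Pool.Agent.Helper42.CK
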