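import Pool.Agent.Helper83.CK.St

/-!
Project CK, module I (injective choice).
-/

namespace Pool.Agent.Helper42.CK
open Pool.Agent.Helper83.CK Cardinal
universe u

theorem mI : StI.{u} := by
  intro I S F hI hF
  obtain ⟨r, wo, hr⟩ := Cardinal.ord_eq I
  have key : ∀ (i : I) (g : ∀ j, r j i → S), ∃ x ∈ F i, ∀ j (h : r j i), g j h ≠ x := by
    intro i g
    by_contra hcon
    push Not at hcon
    have hsub : F i ⊆ Set.range (fun j : {j // r j i} => g j.1 j.2) := by
      intro x hx
      obtain ⟨j, h, e⟩ := hcon x hx
      exact ⟨⟨j, h⟩, e⟩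
    have h1 : #(F i) ≤ #{j // r j i} := (Cardinal.mk_le_mk_of_subset hsub).trans Cardinal.mk_range_le
    have h2 : #{j // r j i} < #I := by
      have h3 : (Ordinal.typein r i).card = #{j // r j i} := rfl
      rw [← h3]
      apply Cardinal.lt_ord.1
      rw [hr]
      exact Ordinal.typein_lt_type r i
    exact absurd (hF i) (not_le.2 (h1.trans_lt h2))
  let v : I → S := wo.wf.fix (fun i g => Classical.choose (key i g))
  have hv : ∀ i, v i = Classical.choose (key i (fun j _ => v j)) := fun i => wo.wf.fix_eq _ i
  have hv1 : ∀ i, v i ∈ F i := fun i => by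
    rw [hv i]
    exact (Classical.choose_spec (key i (fun j _ => v j))).1
  have hv2 : ∀ i j, r j i → v j ≠ v i := fun i j h => by
    rw [hv i]
    exact (Classical.choose_spec (key i (fun j _ => v j))).2 j h
  refine ⟨v, ?_, hv1⟩
  intro i j hij
  rcases trichotomous_of r i j with h | h | h
  · exact absurd hij (hv2 j i h)
  · exact h
  · exact absurd hij.symm (hv2 i j h)

end Pool.Agent.Helper42.CK
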